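import Pool.Agent.H9.Fair

set_option autoImplicit false

namespace Pool.Agent.Results.MP_4956c5_co.Counter

open Pool.Agent.H9.Fair Finset

theorem APS_le {m : ℕ} (u : Fin m → ℝ) (hu : ∀ g, 0 ≤ u g) (w x : ℝ) (hw : 0 ≤ w) (p : Fin m → ℝ)
    (h0 : ∀ g, 0 ≤ p g) (h1 : ∑ g, p g = 1) (h : ∀ S, worth p S ≤ w → worth u S ≤ x) : APS u w ≤ x := by
  unfold APS
  refine le_trans (b := afford u w p) (csInf_le ⟨0, ?_⟩ ⟨p, h0, h1, rfl⟩)
    (csSup_le ⟨0, ∅, by simpa [worth], by simp [worth]⟩ ?_)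
  · rintro y ⟨q, -, -, rfl⟩
    refine Real.sSup_nonneg ?_
    rintro x ⟨S, -, rfl⟩
    exact sum_nonneg fun g _ => hu g
  · rintro y ⟨S, hS, rfl⟩
    exact h S hS

theorem result : ∃ (m : ℕ) (v : Fin 2 → Fin m → ℝ) (w : Fin 2 → ℝ) (A : Fin m → Fin 2),
    (∀ i g, 0 < v i g) ∧ (∀ i, 0 < w i) ∧ ∑ i, w i = 1 ∧
    (∀ i, APS (v i) (w i) ≤ worth (v i) (bundle A i)) ∧ ∃ i, ¬ PROP1 (v i) (w i) A i := by
  have b0 : bundle (![0, 1, 1] : Fin 3 → Fin 2) 0 = {0} := by decide
  have b1 : bundle (![0, 1, 1] : Fin 3 → Fin 2) 1 = {1, 2} := by decide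
  have hv : ∀ g : Fin 3, (0 : ℝ) < ![2, 1, 1] g := fun g => by fin_cases g <;> simp
  have hp : ∀ S : Finset (Fin 3), worth ![1, 0, 0] S ≤ 9 / 10 → worth ![2, 1, 1] S ≤ 2 := by
    intro S hS
    have h0 : (0 : Fin 3) ∉ S := fun h => by
      have := single_le_sum (f := (![1, 0, 0] : Fin 3 → ℝ))
        (fun g _ => by fin_cases g <;> simp) h
      unfold worth at hS
      norm_num at this
      linarith
    have hs : S ⊆ {1, 2} := fun g hg => by
      fin_cases g
      · exact absurd hg h0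
      · simp
      · simp
    refine (sum_le_sum_of_subset_of_nonneg hs fun g _ _ => (hv g).le).trans ?_
    rw [sum_pair (by decide)]
    norm_num [Matrix.cons_val_two]
  refine ⟨3, fun _ => ![2, 1, 1], ![9 / 10, 1 / 10], ![0, 1, 1], fun _ => hv,
    fun i => by fin_cases i <;> simp, by simp; norm_num, fun i => ?_, 0, ?_⟩
  · have e : worth ![2, 1, 1] (bundle (![0, 1, 1] : Fin 3 → Fin 2) i) = 2 := by
      fin_cases i
      · simp [b0, worth]
      · simp only [Fin.mk_one, b1, worth]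
        rw [sum_pair (by decide)]
        norm_num [Matrix.cons_val_two]
    rw [e]
    refine APS_le _ (fun g => (hv g).le) _ _ (by fin_cases i <;> norm_num) ![1, 0, 0]
      (fun g => by fin_cases g <;> simp) (by simp [Fin.sum_univ_three]) fun S hS => hp S (hS.trans ?_)
    fin_cases i <;> norm_num
  · rintro (h | ⟨g, hg, h⟩)
    · simp [b0, worth, Fin.sum_univ_three] at h
      norm_num at h
    · rw [b0] at hg h
      unfold worth at h
      rw [sum_insert hg] at h
      fin_cases g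
      · simp at hg
      · simp [Fin.sum_univ_three] at h
        norm_num at h
      · simp [Fin.sum_univ_three] at h
        norm_num at h

end Pool.Agent.Results.MP_4956c5_co.Counter
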